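import Pool.Agent.W945.Pw.Stm

/-!
# Project PW, part GRID: graphs laid out in `ℤ ^ d` have separators of size `2 r N ^ (1 - 1 / d)`
-/

set_option autoImplicit false

namespace Pool.Agent.W397.Pw.GRID

open Pool.Agent.W945.Pw

variable {V : Type}

/-- lower quantile -/
theorem exists_low (W : Finset V) (hW : W.Nonempty) (x : V → ℤ) (Q : ℝ) (hQ0 : 0 ≤ Q)
    (hQ : Q < W.card) :
    ∃ a : ℤ, ((W.filter (fun v => x v < a)).card : ℝ) ≤ Q ∧
      Q < ((W.filter (fun v => x v < a + 1)).card : ℝ) := by
  obtain ⟨v₁, hv₁, hmax⟩ := W.exists_max_image x hW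
  obtain ⟨v₀, hv₀, hmin⟩ := W.exists_min_image x hW
  obtain ⟨a, ha, hmx⟩ := Int.exists_greatest_of_bdd
    (P := fun h : ℤ => ((W.filter (fun v => x v < h)).card : ℝ) ≤ Q)
    ⟨x v₁, fun z hz => by
      by_contra hcon
      push Not at hcon
      have h1 : W.filter (fun v => x v < z) = W := by
        apply Finset.filter_true_of_mem
        intro v hv
        exact (hmax v hv).trans_lt hcon
      rw [h1] at hz
      linarith⟩
    ⟨x v₀, by
      have h1 : W.filter (fun v => x v < x v₀) = ∅ := by
        apply Finset.filter_false_of_mem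
        intro v hv
        exact not_lt.2 (hmin v hv)
      change ((W.filter (fun v => x v < x v₀)).card : ℝ) ≤ Q
      rw [h1]
      simpa using hQ0⟩
  refine ⟨a, ha, ?_⟩
  by_contra hcon
  push Not at hcon
  have := hmx (a + 1) hcon
  omega

/-- upper quantile -/
theorem exists_high (W : Finset V) (hW : W.Nonempty) (x : V → ℤ) (Q : ℝ) (hQ0 : 0 ≤ Q)
    (hQ : Q < W.card) :
    ∃ b : ℤ, ((W.filter (fun v => b ≤ x v)).card : ℝ) ≤ Q ∧
      ∀ h < b, Q < ((W.filter (fun v => h ≤ x v)).card : ℝ) := by
  obtain ⟨v₁, hv₁, hmax⟩ := W.exists_max_image x hW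
  obtain ⟨v₀, hv₀, hmin⟩ := W.exists_min_image x hW
  obtain ⟨b, hb, hmn⟩ := Int.exists_least_of_bdd
    (P := fun h : ℤ => ((W.filter (fun v => h ≤ x v)).card : ℝ) ≤ Q)
    ⟨x v₀, fun z hz => by
      by_contra hcon
      push Not at hcon
      have h1 : W.filter (fun v => z ≤ x v) = W := by
        apply Finset.filter_true_of_mem
        intro v hv
        exact hcon.le.trans (hmin v hv)
      rw [h1] at hz
      linarith⟩
    ⟨x v₁ + 1, by
      have h1 : W.filter (fun v => x v₁ + 1 ≤ x v) = ∅ := by
        apply Finset.filter_false_of_mem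
        intro v hv
        have := hmax v hv
        omega
      change ((W.filter (fun v => x v₁ + 1 ≤ x v)).card : ℝ) ≤ Q
      rw [h1]
      simpa using hQ0⟩
  refine ⟨b, hb, ?_⟩
  intro h hh
  by_contra hcon
  push Not at hcon
  have := hmn h hcon
  omega

/-- slabs -/
theorem slabs (W : Finset V) (x : V → ℤ) (r : ℕ) (hr : 1 ≤ r) (K : ℝ) (a b : ℤ)
    (hab : a < b)
    (h : ∀ z, a ≤ z → z < b → K < ((W.filter (fun v => z ≤ x v ∧ x v < z + r)).card : ℝ)) :
    ((b - a : ℤ) : ℝ) * K < r * W.card ∨ K < 0 := by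
  classical
  by_cases hK : K < 0
  · exact Or.inr hK
  left
  push Not at hK
  have hstep : ∀ M : ℕ, (W.filter (fun v => a ≤ x v ∧ x v < a + (M + 1 : ℕ) * r)).card =
      (W.filter (fun v => a ≤ x v ∧ x v < a + (M : ℕ) * r)).card +
      (W.filter (fun v => a + M * r ≤ x v ∧ x v < a + M * r + r)).card := by
    intro M
    rw [← Finset.card_union_of_disjoint]
    · congr 1
      ext v
      rw [Finset.mem_union, Finset.mem_filter, Finset.mem_filter, Finset.mem_filter]
      have hMr : (0 : ℤ) ≤ (M : ℤ) * r := by positivity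
      have hr0 : (0 : ℤ) ≤ r := by positivity
      have e : ((M + 1 : ℕ) : ℤ) * r = M * r + r := by push_cast; ring
      rw [e]
      constructor
      · rintro ⟨h1, h2, h3⟩
        by_cases h4 : x v < a + M * r
        · exact Or.inl ⟨h1, h2, h4⟩
        · exact Or.inr ⟨h1, by omega, by omega⟩
      · rintro (⟨h1, h2, h3⟩ | ⟨h1, h2, h3⟩)
        · exact ⟨h1, h2, by omega⟩
        · exact ⟨h1, by omega, by omega⟩
    · rw [Finset.disjoint_left]
      intro v h1 h2
      rw [Finset.mem_filter] at h1 h2
      omega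
  have hind : ∀ M : ℕ, (∀ m < M, a + (m : ℤ) * r < b) →
      (M : ℝ) * K ≤ ((W.filter (fun v => a ≤ x v ∧ x v < a + (M : ℕ) * r)).card : ℝ) := by
    intro M
    induction M with
    | zero => intro _; simp
    | succ M ih =>
      intro hM
      have h1 := ih fun m hm => hM m (by omega)
      have hMr : (0 : ℤ) ≤ (M : ℤ) * r := by positivity
      have h2 := h (a + M * r) (by omega) (hM M (by omega))
      rw [hstep M]
      push_cast
      linarith
  -- the number of slabs
  obtain ⟨M, hM1, hM2⟩ : ∃ M : ℕ, a + (M : ℤ) * r < b ∧ b ≤ a + ((M : ℤ) + 1) * r := by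
    refine ⟨((b - a - 1) / r).toNat, ?_⟩
    have hr0 : (0 : ℤ) < r := by exact_mod_cast hr
    have h0 : 0 ≤ (b - a - 1) / (r : ℤ) := Int.ediv_nonneg (by omega) hr0.le
    rw [Int.toNat_of_nonneg h0]
    have h1 := Int.mul_ediv_add_emod (b - a - 1) r
    have h2 := Int.emod_nonneg (b - a - 1) hr0.ne'
    have h3 := Int.emod_lt_of_pos (b - a - 1) hr0
    constructor
    · nlinarith
    · nlinarith
  have h1 := hind M (by
    intro m hm
    have hr0 : (0 : ℤ) ≤ r := by positivity
    have h2 : (m : ℤ) * r ≤ (M : ℤ) * r := mul_le_mul_of_nonneg_right (by omega) hr0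
    omega)
  have hMr : (0 : ℤ) ≤ (M : ℤ) * r := by positivity
  have h2 := h (a + M * r) (by omega) hM1
  have h3 := hstep M
  have h4 : (W.filter (fun v => a ≤ x v ∧ x v < a + (M + 1 : ℕ) * r)).card ≤ W.card :=
    Finset.card_filter_le _ _
  have h5 : ((M : ℝ) + 1) * K < W.card := by
    have h6 : (((W.filter (fun v => a ≤ x v ∧ x v < a + (M : ℕ) * r)).card : ℝ) +
        ((W.filter (fun v => a + M * r ≤ x v ∧ x v < a + M * r + r)).card : ℝ)) ≤ W.card := by
      rw [h3] at h4
      exact_mod_cast h4
    linarith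
  have h7 : ((b - a : ℤ) : ℝ) ≤ ((M : ℝ) + 1) * r := by
    have h8 : b - a ≤ ((M : ℤ) + 1) * r := by omega
    have h9 : ((b - a : ℤ) : ℝ) ≤ ((((M : ℤ) + 1) * r : ℤ) : ℝ) := by exact_mod_cast h8
    push_cast at h9 ⊢
    exact h9
  have hr0 : (0 : ℝ) < r := by exact_mod_cast hr
  calc ((b - a : ℤ) : ℝ) * K ≤ (((M : ℝ) + 1) * r) * K := mul_le_mul_of_nonneg_right h7 hK
    _ = r * (((M : ℝ) + 1) * K) := by ring
    _ < r * W.card := mul_lt_mul_of_pos_left h5 hr0

theorem main : GRID.Stm := by
  intro V _ _ R d r hd hr ⟨pos, hinj, hpos⟩ W hW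
  by_contra hcon
  push Not at hcon
  have hNpos : 0 < W.card := Finset.card_pos.2 hW
  set N : ℝ := (W.card : ℝ) with hN
  have hN0 : 0 < N := by rw [hN]; exact_mod_cast hNpos
  have hd0 : (0 : ℝ) < d := by exact_mod_cast hd
  have hd1 : (1 : ℝ) ≤ d := by exact_mod_cast hd
  have hr0 : (0 : ℝ) < r := by exact_mod_cast hr
  set q : ℝ := 1 / (4 * d) with hq
  have hq0 : 0 < q := by positivity
  have hq1 : q < 1 := by
    rw [hq, div_lt_one (by positivity)]
    linarith
  set K : ℝ := 2 * r * N ^ (1 - 1 / (d : ℝ)) with hK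
  have hNγ : 0 < N ^ (1 - 1 / (d : ℝ)) := Real.rpow_pos_of_pos hN0 _
  have hK0 : 0 < K := by positivity
  -- the slabs are large
  have hslab : ∀ (i : Fin d) (h : ℤ),
      ((W.filter (fun v => pos v i < h)).card : ℝ) ≤ (1 - q) * N →
      ((W.filter (fun v => h + r ≤ pos v i)).card : ℝ) ≤ (1 - q) * N →
      K < ((W.filter (fun v => h ≤ pos v i ∧ pos v i < h + r)).card : ℝ) := by
    intro i h h1 h2
    refine hcon (W.filter (fun v => pos v i < h))
      (W.filter (fun v => h ≤ pos v i ∧ pos v i < h + r))
      (W.filter (fun v => h + r ≤ pos v i)) ?_ ?_ h1 h2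
    · intro v
      rw [Finset.mem_filter, Finset.mem_filter, Finset.mem_filter]
      constructor
      · intro hv
        by_cases h3 : pos v i < h
        · exact Or.inl ⟨hv, h3⟩
        · by_cases h4 : pos v i < h + r
          · exact Or.inr (Or.inl ⟨hv, by omega, h4⟩)
          · exact Or.inr (Or.inr ⟨hv, by omega⟩)
      · rintro (h3 | h3 | h3) <;> exact h3.1
    · intro u hu v hv
      rw [Finset.mem_filter] at hu hv
      have h3 : (r : ℤ) < pos v i - pos u i := by omega
      refine ⟨fun h4 => ?_, fun h4 => ?_, fun h4 => ?_⟩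
      · rw [h4] at h3
        omega
      · have h5 := hpos u v h4 i
        rw [abs_le] at h5
        omega
      · have h5 := hpos v u h4 i
        rw [abs_le] at h5
        omega
  have hQN : q * N < W.card := by
    rw [← hN]
    nlinarith
  have hQ0 : 0 ≤ q * N := by positivity
  choose a ha1 ha2 using fun i : Fin d => exists_low W hW (fun v => pos v i) (q * N) hQ0 hQN
  choose b hb1 hb2 using fun i : Fin d => exists_high W hW (fun v => pos v i) (q * N) hQ0 hQN
  -- complement counts
  have hcompl : ∀ (i : Fin d) (h : ℤ), ((W.filter (fun v => pos v i < h)).card : ℝ) +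
      ((W.filter (fun v => h ≤ pos v i)).card : ℝ) = N := by
    intro i h
    have h1 := Finset.card_filter_add_card_filter_not (s := W) (fun v => pos v i < h)
    have h2 : W.filter (fun v => ¬ pos v i < h) = W.filter (fun v => h ≤ pos v i) := by
      apply Finset.filter_congr
      intro v _
      exact not_lt
    rw [h2] at h1
    rw [hN]
    exact_mod_cast h1
  have hlen : ∀ i : Fin d, a i < b i → ((b i - a i : ℤ) : ℝ) * K < r * N := by
    intro i hi
    rcases slabs W (fun v => pos v i) r hr K (a i) (b i) hi (by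
      intro z hz1 hz2
      apply hslab i z
      · have h1 := hcompl i z
        have h2 := hb2 i z hz2
        linarith
      · have h1 := hcompl i (z + r)
        have h2 := ha2 i
        have h3 : ((W.filter (fun v => pos v i < a i + 1)).card : ℝ) ≤
            ((W.filter (fun v => pos v i < z + r)).card : ℝ) := by
          have : W.filter (fun v => pos v i < a i + 1) ⊆ W.filter (fun v => pos v i < z + r) := by
            intro v hv
            rw [Finset.mem_filter] at hv ⊢
            exact ⟨hv.1, by omega⟩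
          exact_mod_cast Finset.card_le_card this
        linarith) with h | h
    · exact h
    · linarith
  -- the box
  have hbox1 : N / 2 ≤ ((W.filter (fun v => ∀ i, a i ≤ pos v i ∧ pos v i < b i)).card : ℝ) := by
    have hsub : W.filter (fun v => ¬ ∀ i, a i ≤ pos v i ∧ pos v i < b i) ⊆
        Finset.univ.biUnion (fun i : Fin d => W.filter (fun v => pos v i < a i) ∪
          W.filter (fun v => b i ≤ pos v i)) := by
      intro v hv
      rw [Finset.mem_filter] at hv
      obtain ⟨hvW, hv⟩ := hv
      push Not at hv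
      obtain ⟨i, hi⟩ := hv
      rw [Finset.mem_biUnion]
      refine ⟨i, Finset.mem_univ i, ?_⟩
      rw [Finset.mem_union, Finset.mem_filter, Finset.mem_filter]
      by_cases h1 : pos v i < a i
      · exact Or.inl ⟨hvW, h1⟩
      · exact Or.inr ⟨hvW, hi (by omega)⟩
    have h1 : ((W.filter (fun v => ¬ ∀ i, a i ≤ pos v i ∧ pos v i < b i)).card : ℝ) ≤
        ∑ i : Fin d, (2 * (q * N)) := by
      calc ((W.filter (fun v => ¬ ∀ i, a i ≤ pos v i ∧ pos v i < b i)).card : ℝ)
          ≤ ((Finset.univ.biUnion (fun i : Fin d => W.filter (fun v => pos v i < a i) ∪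
            W.filter (fun v => b i ≤ pos v i))).card : ℝ) := by
            exact_mod_cast Finset.card_le_card hsub
        _ ≤ ∑ i : Fin d, ((W.filter (fun v => pos v i < a i) ∪
            W.filter (fun v => b i ≤ pos v i)).card : ℝ) := by
            exact_mod_cast Finset.card_biUnion_le
        _ ≤ ∑ i : Fin d, (2 * (q * N)) := by
            apply Finset.sum_le_sum
            intro i _
            have h2 : ((W.filter (fun v => pos v i < a i) ∪
                W.filter (fun v => b i ≤ pos v i)).card : ℝ) ≤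
                ((W.filter (fun v => pos v i < a i)).card : ℝ) +
                ((W.filter (fun v => b i ≤ pos v i)).card : ℝ) := by
              exact_mod_cast Finset.card_union_le _ _
            have h3 := ha1 i
            have h4 := hb1 i
            linarith
    have h2 : ∑ i : Fin d, (2 * (q * N)) = N / 2 := by
      rw [Finset.sum_const, Finset.card_univ, Fintype.card_fin, nsmul_eq_mul, hq]
      field_simp
      norm_num
    have h3 := Finset.card_filter_add_card_filter_not (s := W)
      (fun v => ∀ i, a i ≤ pos v i ∧ pos v i < b i)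
    have h4 : ((W.filter (fun v => ∀ i, a i ≤ pos v i ∧ pos v i < b i)).card : ℝ) +
        ((W.filter (fun v => ¬ ∀ i, a i ≤ pos v i ∧ pos v i < b i)).card : ℝ) = N := by
      rw [hN]
      exact_mod_cast h3
    linarith
  have hbox2 : (W.filter (fun v => ∀ i, a i ≤ pos v i ∧ pos v i < b i)).card ≤
      ∏ i : Fin d, (b i - a i).toNat := by
    calc (W.filter (fun v => ∀ i, a i ≤ pos v i ∧ pos v i < b i)).card
        ≤ (Fintype.piFinset (fun i : Fin d => Finset.Ico (a i) (b i))).card := by
          apply Finset.card_le_card_of_injOn pos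
          · intro v hv
            rw [Finset.mem_coe, Finset.mem_filter] at hv
            rw [Finset.mem_coe, Fintype.mem_piFinset]
            intro i
            rw [Finset.mem_Ico]
            exact hv.2 i
          · exact hinj.injOn
      _ = ∏ i : Fin d, (b i - a i).toNat := by
          rw [Fintype.card_piFinset]
          apply Finset.prod_congr rfl
          intro i _
          exact Int.card_Ico _ _
  have hbox3 : N / 2 ≤ ∏ i : Fin d, ((b i - a i).toNat : ℝ) := by
    refine hbox1.trans ?_
    exact_mod_cast hbox2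
  -- all intervals are nonempty
  have hne : ∀ i, a i < b i := by
    intro i
    by_contra hi
    have h0 : (b i - a i).toNat = 0 := by omega
    have h1 : ∏ i : Fin d, ((b i - a i).toNat : ℝ) = 0 :=
      Finset.prod_eq_zero (Finset.mem_univ i) (by rw [h0]; simp)
    rw [h1] at hbox3
    linarith
  -- numbers
  set L : ℝ := N ^ (1 / (d : ℝ)) / 2 with hL
  have hPL : N ^ (1 - 1 / (d : ℝ)) * (2 * L) = N := by
    rw [hL, mul_div_cancel₀ _ (two_ne_zero), ← Real.rpow_add hN0]
    have : (1 - 1 / (d : ℝ)) + 1 / (d : ℝ) = 1 := by ring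
    rw [this, Real.rpow_one]
  have hLd : L ^ d = N / 2 ^ d := by
    rw [hL, div_pow]
    congr 1
    rw [← Real.rpow_natCast, ← Real.rpow_mul hN0.le]
    have : 1 / (d : ℝ) * (d : ℝ) = 1 := by field_simp
    rw [this, Real.rpow_one]
  have hltL : ∀ i, ((b i - a i).toNat : ℝ) < L := by
    intro i
    have h1 := hlen i (hne i)
    have h2 : (((b i - a i).toNat : ℕ) : ℝ) = ((b i - a i : ℤ) : ℝ) := by
      have : (((b i - a i).toNat : ℕ) : ℤ) = b i - a i :=
        Int.toNat_of_nonneg (by have := hne i; omega)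
      exact_mod_cast congrArg (fun z : ℤ => (z : ℝ)) this
    rw [h2]
    have h3 : (r : ℝ) * N = L * K := by
      rw [hK]
      nth_rewrite 1 [← hPL]
      ring
    rw [h3] at h1
    exact lt_of_mul_lt_mul_right h1 hK0.le
  have hposf : ∀ i, (0 : ℝ) < ((b i - a i).toNat : ℝ) := by
    intro i
    have := hne i
    have h0 : 0 < (b i - a i).toNat := by omega
    exact_mod_cast h0
  have hprod : ∏ i : Fin d, ((b i - a i).toNat : ℝ) < ∏ _i : Fin d, L := by
    have : Nonempty (Fin d) := ⟨⟨0, by omega⟩⟩
    apply Finset.prod_lt_prod_of_nonempty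
    · intro i _; exact hposf i
    · intro i _; exact hltL i
    · exact Finset.univ_nonempty
  rw [Finset.prod_const, Finset.card_univ, Fintype.card_fin, hLd] at hprod
  have h2d : (2 : ℝ) ≤ 2 ^ d := by
    calc (2 : ℝ) = 2 ^ 1 := by norm_num
      _ ≤ 2 ^ d := pow_le_pow_right₀ (by norm_num) hd
  have hfin : N / 2 ^ d ≤ N / 2 := by
    apply div_le_div_of_nonneg_left hN0.le (by norm_num) h2d
  linarith

end Pool.Agent.W397.Pw.GRID
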